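import Mathlib
import Pool.Agent.H20.Rooted
import Pool.Agent.H34.TDGlue

set_option maxHeartbeats 1000000

namespace Pool.Agent.Results.MP_913bbb_co.Sharp

open Finset SimpleGraph

/-- Any two distinct neighbours of a vertex have different degrees
(the degree of `w` is the size of its neighbour set). -/
def HighlyIrregular {V : Type} (G : SimpleGraph V) : Prop :=
  ∀ v a b, G.Adj v a → G.Adj v b → a ≠ b → (G.neighborSet a).ncard ≠ (G.neighborSet b).ncard

def XX : List (List ℤ) := [[], [-22, 48, 48, 48, 48, 48, 48, 48], [-22, 17, 9, 17, 17, 17, 17, 17],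
  [-22, 9, 9, -8, 3, 9, 9, 9], [-26, 5, 5, -12, -15, -8, 5, 5], [-32, -3, -3, -18, -21, -19, -19, -3],
  [-41, -22, -22, -27, -30, -28, -28, -22], [-51, -35, -35, -37, -40, -38, -38, -35]]
def YY : List (List ℤ) := [[], [-31, -79, -79, -79, -79, -79, -79, -79],
  [-22, -70, -31, -31, -31, -31, -31, -31], [-22, -70, -39, -14, -14, -14, -14, -14],
  [-22, -70, -39, -25, -11, -11, -11, -11], [-26, -74, -43, -35, -18, -13, -13, -13],
  [-26, -74, -43, -35, -31, -13, -13, -13], [-32, -80, -49, -41, -37, -29, -19, -16]]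

def pot (b : Bool) (d p : ℕ) : ℤ := (((if b then XX else YY).getD (min d 7) []).getD (min p 7) 0)
def ch (b : Bool) (e d : ℕ) : ℤ := if b then pot false e d else max (pot true e d) (pot false e d)

theorem fin_check : ∀ b : Bool, ∀ d ∈ Icc 1 7, ∀ p ∈ range 8, ∀ T ∈ (Icc 1 6).powerset, p ∉ T →
    (d < 7 → T.card ≤ (if p = 0 then d else d - 1)) →
    (if b then 48 else -79) + ∑ e ∈ T, ch b e d +
      ((if p = 0 then d else d - 1) - T.card : ℕ) * ch b 7 d ≤ pot b d p := by decide +kernel

theorem loc (b : Bool) (d p : ℕ) (hd : 1 ≤ d) (S : Finset ℕ) (h0 : ∀ e ∈ S, 1 ≤ e) (hp : p ∉ S)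
    (hc : S.card = if p = 0 then d else d - 1) :
    (if b then 48 else -79) + ∑ e ∈ S, ch b e d ≤ pot b d p := by
  have h1 := fin_check b (min d 7) (by simp; omega) (min p 7) (by simp)
    (S.filter (· < 7)) (by
      rw [mem_powerset]; intro e he; rw [mem_filter] at he; have := h0 e he.1; simp; omega)
    (by
      rw [mem_filter]; rintro ⟨h1, h2⟩; apply hp; rwa [min_eq_left (by omega)] at h1)
    (by
      intro h
      have := card_filter_le S (· < 7)
      split_ifs at hc ⊢ <;> omega)
  have e1 : ∀ e, ch b e (min d 7) = ch b e d := fun e => by simp [ch, pot]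
  have e2 : pot b (min d 7) (min p 7) = pot b d p := by simp [pot]
  simp only [e1, e2] at h1
  rw [← sum_filter_add_sum_filter_not S (· < 7)]
  have e3 : ∑ e ∈ S.filter (fun e => ¬ e < 7), ch b e d =
      (S.filter (fun e => ¬ e < 7)).card * ch b 7 d := by
    rw [sum_congr rfl (g := fun _ => ch b 7 d), sum_const, nsmul_eq_mul]
    intro e he
    have : min e 7 = 7 := by rw [mem_filter] at he; omega
    simp [ch, pot, this]
  have e4 := card_filter_add_card_filter_not (s := S) (· < 7)
  have e5 : ch b 7 d ≤ 0 := by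
    rw [← e1]
    have : ∀ b : Bool, ∀ d ∈ Icc 1 7, ch b 7 d ≤ 0 := by decide +kernel
    exact this b _ (by simp; omega)
  have e6 : (((if min p 7 = 0 then min d 7 else min d 7 - 1) - (S.filter (· < 7)).card : ℕ) : ℤ) ≤
      (S.filter (fun e => ¬ e < 7)).card := by
    rw [Nat.cast_le]; split_ifs at hc ⊢ <;> omega
  rw [e3]; nlinarith

theorem upper {V : Type} [Fintype V] (G : SimpleGraph V) (hT : G.IsTree) (hI : HighlyIrregular G)
    (hn : 2 ≤ Fintype.card V) : 127 * G.indepNum + 22 ≤ 79 * Fintype.card V := by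
  classical
  obtain ⟨I, hI1, hI2⟩ := G.exists_isNIndepSet_indepNum
  obtain ⟨r⟩ := hT.connected.nonempty
  obtain ⟨par, h1, h2⟩ := Pool.Agent.H20.rooted G hT r
  set g : V → ℕ := fun v => (G.neighborSet v).ncard with hg
  have hg' : ∀ v, g v = (G.neighborFinset v).card := fun v => by
    rw [neighborFinset_def, ← Set.ncard_eq_toFinset_card']
  have hpos : ∀ v w, G.Adj v w → 1 ≤ g v := fun v w h => by
    rw [hg']; exact card_pos.2 ⟨w, by simpa using h⟩
  have hpos' : ∀ v, 1 ≤ g v := fun v => by
    have : Nontrivial V := Fintype.one_lt_card_iff_nontrivial.1 hn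
    obtain ⟨w, hw⟩ := hT.connected.preconnected.exists_adj_of_nontrivial v
    exact hpos v w hw
  let pp : V → ℕ := fun v => if v = r then 0 else g (par v)
  let φ : V → ℤ := fun v => pot (decide (v ∈ I)) (g v) (pp v)
  have key : ∀ v, (if v ∈ I then (48 : ℤ) else -79) +
      ∑ c ∈ (univ.erase r).filter (fun c => par c = v), φ c ≤ φ v := by
    intro v
    set C := (univ.erase r).filter (fun c => par c = v) with hC
    have hadj : ∀ c ∈ C, G.Adj v c ∧ G.dist r c = G.dist r v + 1 ∧ c ≠ r ∧ par c = v := by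
      intro c hc
      simp only [hC, mem_filter, mem_erase, mem_univ, and_true] at hc
      have := h1 c hc.1
      rw [hc.2] at this
      exact ⟨this.1.symm, this.2, hc⟩
    have hinj : Set.InjOn g C := fun a ha b hb e => by
      by_contra hne; exact hI v a b (hadj a ha).1 (hadj b hb).1 hne e
    have hl := loc (decide (v ∈ I)) (g v) (pp v) (hpos' v) (C.image g)
      (fun e he => by obtain ⟨c, -, rfl⟩ := mem_image.1 he; exact hpos' c)
      (fun he => by
        obtain ⟨c, hc, e⟩ := mem_image.1 he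
        by_cases hv : v = r
        · have := hpos' c; simp only [pp, if_pos hv] at e; omega
        · simp only [pp, if_neg hv] at e
          refine hI v c (par v) (hadj c hc).1 (h1 v hv).1 (fun h => ?_) e
          have := (hadj c hc).2.1; have := (h1 v hv).2; rw [← h] at this; omega)
      (by
        rw [card_image_of_injOn hinj, hg' v]
        by_cases hv : v = r
        · rw [if_pos (by simp [pp, hv])]
          congr 1; ext c
          refine ⟨fun hc => by simpa using (hadj c hc).1, fun hc => ?_⟩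
          have := h2 v c (by simpa using hc)
          simp only [hC, mem_filter, mem_erase, mem_univ, and_true]; grind
        · have := hpos' (par v)
          rw [if_neg (by simp only [pp, if_neg hv]; omega),
            ← card_erase_of_mem (a := par v) (by simpa using (h1 v hv).1)]
          congr 1; ext c
          refine ⟨fun hc => mem_erase.2 ⟨fun h => ?_, by simpa using (hadj c hc).1⟩, fun hc => ?_⟩
          · have := (hadj c hc).2.1; have := (h1 v hv).2; rw [← h] at this; omega
          · rw [mem_erase] at hc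
            have := h2 v c (by simpa using hc.2)
            simp only [hC, mem_filter, mem_erase, mem_univ, and_true]; grind)
    rw [sum_image hinj] at hl
    refine le_trans (add_le_add (by simp) (sum_le_sum fun c hc => ?_)) hl
    obtain ⟨a1, -, a2, a3⟩ := hadj c hc
    simp only [φ, pp, if_neg a2, a3, ch]
    by_cases hv : v ∈ I
    · have : c ∉ I := fun h => hI1 hv h a1.ne a1
      simp [hv, this]
    · by_cases hc : c ∈ I <;> simp [hv, hc]
  have s1 := sum_le_sum (s := univ) fun v _ => key v
  rw [sum_add_distrib, sum_fiberwise (univ.erase r) par φ,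
    ← sum_erase_add _ φ (mem_univ r)] at s1
  have s2 : φ r ≤ -22 := by
    have : ∀ b : Bool, ∀ d ∈ Icc 1 7, pot b d 0 ≤ -22 := by decide +kernel
    have h := this (decide (r ∈ I)) (min (g r) 7) (by have := hpos' r; simp; omega)
    simpa [φ, pp, pot] using h
  have s3 : ∑ v, (if v ∈ I then (48 : ℤ) else -79) = 127 * I.card - 79 * Fintype.card V := by
    rw [sum_congr rfl (g := fun v => 127 * (if v ∈ I then (1 : ℤ) else 0) - 79)
      (fun v _ => by split_ifs <;> norm_num), sum_sub_distrib, ← mul_sum]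
    simp [mul_comm]
  rw [← hI2]; omega

def Ex (d : ℕ) (S : Finset ℕ) (b : Bool) (n a : ℕ) : Prop :=
  ∃ (V : Type) (_ : Fintype V) (G : SimpleGraph V) (r : V) (g : V → ℕ) (I : Finset V),
    G.IsTree ∧ Fintype.card V = n ∧ I.card = a ∧ G.IsIndepSet I ∧ (r ∈ I → b = true) ∧ g r = d ∧
    (∀ v, v ≠ r → g v = (G.neighborSet v).ncard) ∧ (∀ v, Set.InjOn g (G.neighborSet v)) ∧
    g '' G.neighborSet r = S

theorem one (d : ℕ) (b : Bool) : Ex d ∅ b 1 b.toNat :=
  ⟨Unit, inferInstance, ⊥, (), fun _ => d, if b then univ else ∅, IsTree.of_subsingleton, rfl,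
    by cases b <;> rfl, fun _ _ _ _ _ => by simp, by cases b <;> simp, rfl,
    fun _ h => absurd rfl h, fun _ => by simp, by simp⟩

theorem Ex.glue {d e : ℕ} {S S' : Finset ℕ} {b b' : Bool} {n a n' a' : ℕ} (h1 : Ex d S b n a)
    (h2 : Ex e S' b' n' a')
    (h : S'.card + 1 = e ∧ e ∉ S ∧ d ∉ S' ∧ ¬ (b = true ∧ b' = true)) :
    Ex d (insert e S) b (n + n') (a + a') := by
  classical
  obtain ⟨V, _, G, r, g, I, t, c, ca, i, ri, gr, gd, gi, gs⟩ := h1
  obtain ⟨W, _, H, s, g', J, t', c', ca', i', ri', gr', gd', gi', gs'⟩ := h2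
  have nl : ∀ v, ((G ⊕g H) ⊔ edge (.inl r) (.inr s)).neighborSet (.inl v) =
      Sum.inl '' G.neighborSet v ∪ {x | x = .inr s ∧ v = r} := by
    intro v; ext x; rcases x with x | x <;> simp [edge_adj] <;> tauto
  have nr : ∀ v, ((G ⊕g H) ⊔ edge (.inl r) (.inr s)).neighborSet (.inr v) =
      Sum.inr '' H.neighborSet v ∪ {x | x = .inl r ∧ v = s} := by
    intro v; ext x; rcases x with x | x <;> simp [edge_adj] <;> tauto
  have m1 : ∀ x, G.Adj r x → g x ≠ e := fun x hx e' =>
    h.2.1 (by rw [← mem_coe, ← gs]; exact ⟨x, hx, e'⟩)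
  have m2 : ∀ x, H.Adj s x → g' x ≠ d := fun x hx e' =>
    h.2.2.1 (by rw [← mem_coe, ← gs']; exact ⟨x, hx, e'⟩)
  refine ⟨V ⊕ W, inferInstance, (G ⊕g H) ⊔ edge (.inl r) (.inr s), .inl r, Sum.elim g g',
    I.disjSum J, Pool.Agent.H34.TDGlue.tree_glue t t' r s, by simp [c, c'], by simp [ca, ca'],
    ?_, by simpa using ri, gr, ?_, ?_, ?_⟩
  · rintro (x | x) hx (y | y) hy hne <;> simp [edge_adj] at hx hy hne ⊢
    · exact i hx hy hne
    · rintro rfl rfl; exact h.2.2.2 ⟨ri hx, ri' hy⟩
    · rintro rfl rfl; exact h.2.2.2 ⟨ri hy, ri' hx⟩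
    · exact i' hx hy hne
  · rintro (v | v) hv
    · have : v ≠ r := by simpa using hv
      rw [nl]; simp [this, Set.ncard_image_of_injective _ Sum.inl_injective, gd v this]
    · rw [nr]
      by_cases e' : v = s
      · subst e'
        have : (H.neighborSet v).ncard = S'.card := by
          rw [← Set.ncard_coe_finset, ← gs', (gi' v).ncard_image]
        simp only [and_true, Set.setOf_eq_eq_singleton, Set.union_singleton, Sum.elim_inr]
        rw [Set.ncard_insert_of_notMem (by simp), Set.ncard_image_of_injective _ Sum.inr_injective,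
          this, gr', h.1]
      · simp [e', Set.ncard_image_of_injective _ Sum.inr_injective, gd' v e']
  · rintro (v | v)
    · rw [nl]
      rintro _ (⟨x, hx, rfl⟩ | ⟨rfl, hv⟩) _ (⟨y, hy, rfl⟩ | ⟨rfl, hv'⟩) e'
      · rw [gi v hx hy e']
      · subst hv'; exact absurd (e'.trans gr') (m1 x hx)
      · subst hv; exact absurd (e'.symm.trans gr') (m1 y hy)
      · rfl
    · rw [nr]
      rintro _ (⟨x, hx, rfl⟩ | ⟨rfl, hv⟩) _ (⟨y, hy, rfl⟩ | ⟨rfl, hv'⟩) e'
      · rw [gi' v hx hy e']
      · subst hv'; exact absurd (e'.trans gr) (m2 x hx)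
      · subst hv; exact absurd (e'.symm.trans gr) (m2 y hy)
      · rfl
  · rw [nl, Set.image_union, Set.image_image, coe_insert, ← gs, Set.union_comm]
    simp [gr']

theorem l1 : Ex 1 ∅ true 1 1 := one 1 true
theorem t20 : Ex 2 {1} false 2 1 := (one 2 false).glue l1 (by decide)
theorem t21 : Ex 2 {2} true 3 2 := (one 2 true).glue t20 (by decide)
theorem t30 : Ex 3 {1, 2} false 5 3 := ((one 3 false).glue t21 (by decide)).glue l1 (by decide)
theorem t341 : Ex 3 {2, 3} true 8 5 := ((one 3 true).glue t30 (by decide)).glue t20 (by decide)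
theorem t40 : Ex 4 {1, 2, 3} false 13 8 :=
  (((one 4 false).glue t341 (by decide)).glue t21 (by decide)).glue l1 (by decide)
theorem t430 : Ex 4 {1, 2, 4} false 18 11 :=
  (((one 4 false).glue t40 (by decide)).glue t21 (by decide)).glue l1 (by decide)
theorem t351 : Ex 3 {3, 4} true 24 15 := ((one 3 true).glue t430 (by decide)).glue t30 (by decide)

theorem fam (k : ℕ) : ∃ n a, k ≤ n ∧ 127 * a + 13 = 79 * n ∧ Ex 5 {1, 2, 3, 4} false n a := by
  induction k with
  | zero =>
    have a0 := (((one 4 true).glue t40 (by decide)).glue t30 (by decide)).glue t20 (by decide)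
    exact ⟨_, _, Nat.zero_le _, by decide, ((((one 5 false).glue a0 (by decide)).glue t351
      (by decide)).glue t21 (by decide)).glue l1 (by decide)⟩
  | succ k ih =>
    obtain ⟨n, a, h1, h2, B⟩ := ih
    have c54 := ((((one 5 false).glue B (by decide)).glue t351 (by decide)).glue t21
      (by decide)).glue l1 (by decide)
    have c46 := (((one 4 true).glue c54 (by decide)).glue t40 (by decide)).glue t30 (by decide)
    have c66 := (((((one 6 false).glue B (by decide)).glue c46 (by decide)).glue t351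
      (by decide)).glue t21 (by decide)).glue l1 (by decide)
    have c64 := (((((one 6 false).glue c66 (by decide)).glue B (by decide)).glue t351
      (by decide)).glue t21 (by decide)).glue l1 (by decide)
    have a0 := (((one 4 true).glue c64 (by decide)).glue t40 (by decide)).glue t30 (by decide)
    refine ⟨_, _, ?_, ?_, ((((one 5 false).glue a0 (by decide)).glue t351
      (by decide)).glue t21 (by decide)).glue l1 (by decide)⟩
    · omega
    · simp only [Bool.toNat_true, Bool.toNat_false]; omega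

theorem Ex.fin {d : ℕ} {S : Finset ℕ} {b : Bool} {n a : ℕ} (h : Ex d S b n a) (hd : S.card = d) :
    ∃ (V : Type) (_ : Fintype V) (G : SimpleGraph V), G.IsTree ∧ HighlyIrregular G ∧
      Fintype.card V = n ∧ a ≤ G.indepNum := by
  obtain ⟨V, _, G, r, g, I, t, c, ca, i, ri, gr, gd, gi, gs⟩ := h
  have : ∀ v, g v = (G.neighborSet v).ncard := fun v => by
    by_cases e : v = r
    · rw [e, gr, ← hd, ← Set.ncard_coe_finset, ← gs, (gi r).ncard_image]
    · exact gd v e
  exact ⟨V, inferInstance, G, t, fun v x y hx hy hne e => hne (gi v hx hy (by rw [this, this, e])),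
    c, ca ▸ i.card_le_indepNum⟩

theorem result :
    (∀ (V : Type) [Fintype V] (T : SimpleGraph V), T.IsTree → HighlyIrregular T →
      2 ≤ Fintype.card V → 127 * T.indepNum + 22 ≤ 79 * Fintype.card V) ∧
    (∃ (V : Type) (_ : Fintype V) (T : SimpleGraph V), T.IsTree ∧ HighlyIrregular T ∧
      2 ≤ Fintype.card V ∧ 127 * T.indepNum + 22 = 79 * Fintype.card V) ∧
    IsLUB {x : ℝ | ∃ (V : Type) (_ : Fintype V) (T : SimpleGraph V), T.IsTree ∧
      HighlyIrregular T ∧ 2 ≤ Fintype.card V ∧ x = T.indepNum / Fintype.card V} (79 / 127) := by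
  refine ⟨fun V _ T h1 h2 h3 => upper T h1 h2 h3, ?_, ?_, ?_⟩
  · obtain ⟨V, _, T, h1, h2, h3, h4⟩ := (((((one 4 false).glue t40 (by decide)).glue t341
      (by decide)).glue t21 (by decide)).glue l1 (by decide)).fin (by decide)
    simp only [Bool.toNat_false] at h4
    have := upper T h1 h2 (by omega)
    exact ⟨V, inferInstance, T, h1, h2, by omega, by omega⟩
  · rintro _ ⟨V, _, T, h1, h2, h3, rfl⟩
    have := upper T h1 h2 h3
    have h4 : (127 * T.indepNum + 22 : ℝ) ≤ 79 * Fintype.card V := by exact_mod_cast this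
    rw [div_le_div_iff₀ (by positivity) (by norm_num)]; linarith
  · intro c hc
    refine le_of_forall_pos_le_add fun ε hε => ?_
    obtain ⟨k, hk⟩ := exists_nat_gt (1 / ε)
    obtain ⟨n, a, h1, h2, B⟩ := fam k
    obtain ⟨V, _, T, t1, t2, t3, t4⟩ := (B.glue B (by decide)).fin (by decide)
    have hn : 1 ≤ n := by omega
    have h3 := hc ⟨V, inferInstance, T, t1, t2, by omega, rfl⟩
    have hn' : (1 : ℝ) ≤ n := by exact_mod_cast hn
    rw [t3, div_le_iff₀ (by positivity)] at h3
    have h4 : ((a : ℝ) + a) ≤ T.indepNum := by exact_mod_cast t4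
    have h5 : (127 * a + 13 : ℝ) = 79 * n := by exact_mod_cast h2
    have h6 : (k : ℝ) ≤ n := by exact_mod_cast h1
    rw [div_lt_iff₀ hε] at hk
    push_cast at h3
    have h7 : 1 < n * ε := by nlinarith
    by_contra h8
    push Not at h8
    nlinarith

end Pool.Agent.Results.MP_913bbb_co.Sharp
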